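import Pool.Agent.KS6_3.ZL.Helper386.D5V.Helper386_FF_Fund

/-! Function fields in one variable; zeros and poles; degree of principal divisors. -/

set_option autoImplicit false
set_option linter.all false
set_option linter.overlappingInstances false

open Module IsDedekindDomain IntermediateField

namespace FF

/-- Function fields of one variable (arbitrary constant field). -/
class IsFF (k K : Type*) [Field k] [Field K] [Algebra k K] : Prop where
  ess : Algebra.EssFiniteType k K
  trdeg : Algebra.trdeg k K = 1

section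
variable {k K : Type*} [Field k] [Field K] [Algebra k K]

theorem IsFF.basis [h : IsFF k K] {f : K} (hf : Transcendental k f) :
    IsTranscendenceBasis k (fun _ : Unit => f) := by
  have h1 : AlgebraicIndependent k (fun _ : Unit => f) := by
    rw [algebraicIndependent_unique_type_iff]
    exact hf
  refine h1.isTranscendenceBasis_of_lift_trdeg_le_of_finite ?_
  rw [h.trdeg]; simp

theorem IsFF.isAlgebraic [h : IsFF k K] {f : K} (hf : Transcendental k f) :
    Algebra.IsAlgebraic k⟮f⟯ K := by
  have h1 := (IsFF.basis hf).isAlgebraic_field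
  have h2 : Set.range (fun _ : Unit => f) = {f} := by simp
  rwa [h2] at h1

theorem IsFF.finite [h : IsFF k K] {f : K} (hf : Transcendental k f) :
    FiniteDimensional k⟮f⟯ K := by
  have h1 := IsFF.isAlgebraic hf
  have h2 := h.ess
  have h3 : Algebra.EssFiniteType k⟮f⟯ K := Algebra.EssFiniteType.of_comp k k⟮f⟯ K
  have h4 := IntermediateField.fg_top k⟮f⟯ K
  obtain ⟨s, hs⟩ := h4
  have h5 : FiniteDimensional k⟮f⟯ (IntermediateField.adjoin k⟮f⟯ (s : Set K)) :=
    IntermediateField.finiteDimensional_adjoin (fun x _ => (h1.isAlgebraic x).isIntegral)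
  rw [hs] at h5
  exact IntermediateField.topEquiv.toLinearEquiv.finiteDimensional

theorem IsFF.exists_transcendental [h : IsFF k K] : ∃ f : K, Transcendental k f := by
  by_contra hc
  push Not at hc
  have h2 : Algebra.IsAlgebraic k K := ⟨fun x => by
    have := hc x
    simpa [Transcendental] using this⟩
  have h3 := h.trdeg
  rw [_root_.trdeg_eq_zero_iff.2 h2] at h3
  exact zero_ne_one h3

theorem IsFF.of_finite {f : K} (hf : Transcendental k f) (hfin : FiniteDimensional k⟮f⟯ K) : IsFF k K := by
  have h1 : AlgebraicIndependent k (fun _ : Unit => f) := by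
    rw [algebraicIndependent_unique_type_iff]
    exact hf
  constructor
  · have h2 : Algebra.EssFiniteType k k⟮f⟯ := IntermediateField.essFiniteType_iff.2 ⟨{f}, by simp⟩
    exact Algebra.EssFiniteType.comp k k⟮f⟯ K
  · have h2 : IsTranscendenceBasis k (fun _ : Unit => f) := by
      rw [isTranscendenceBasis_iff_algebraicIndependent_isAlgebraic]
      refine ⟨h1, ?_⟩
      have h3 : Set.range (fun _ : Unit => f) = {f} := by simp
      rw [h3]
      open scoped algebraAdjoinAdjoin in
      have h4 : Algebra.IsAlgebraic (Algebra.adjoin k {f}) k⟮f⟯ := inferInstance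
      open scoped algebraAdjoinAdjoin in
      exact Algebra.IsAlgebraic.trans (Algebra.adjoin k {f}) k⟮f⟯ K
    have := h2.lift_cardinalMk_eq_trdeg
    simpa using this.symm

theorem Place.ord_eq_zero_of_isAlgebraic (P : Place k K) {f : K} (hf0 : f ≠ 0) (hf : IsAlgebraic k f) :
    P.ord f = 0 := by
  have h1 : P.Reg f := P.reg_of_isIntegral (A := k) P.reg_const hf.isIntegral
  have h2 : P.Reg f⁻¹ := P.reg_of_isIntegral (A := k) P.reg_const hf.inv.isIntegral
  have h3 := (P.reg_iff hf0).1 h1
  have h4 := (P.reg_iff (inv_ne_zero hf0)).1 h2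
  rw [P.ord_inv] at h4
  omega

theorem Place.transcendental_of_ord_ne (P : Place k K) {f : K} (hf : P.ord f ≠ 0) :
    Transcendental k f := by
  intro h
  apply hf
  by_cases hf0 : f = 0
  · rw [hf0, P.ord_zero]
  · exact P.ord_eq_zero_of_isAlgebraic hf0 h

theorem zeros [CharZero k] [h : IsFF k K] {f : K} (hf : Transcendental k f) :
    ∃ S : Finset (Place k K), (∀ w, w ∈ S ↔ 0 < w.ord f) ∧ (∀ w ∈ S, 0 < w.deg) ∧
      ∑ w ∈ S, (w.ord f).toNat * w.deg = finrank k⟮f⟯ K := by
  open scoped algebraAdjoinAdjoin in
  let A := Algebra.adjoin k {f}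
  let e := Polynomial.algEquivOfTranscendental k f hf
  have hpid : IsPrincipalIdealRing A := IsPrincipalIdealRing.of_surjective e.toRingEquiv e.surjective
  have hded : IsDedekindDomain A := inferInstance
  have hfin := IsFF.finite hf
  have hchar : CharZero k⟮f⟯ := charZero_of_injective_algebraMap (algebraMap k k⟮f⟯).injective
  have hsep : Algebra.IsSeparable k⟮f⟯ K := inferInstance
  let π : A := ⟨f, Algebra.self_mem_adjoin_singleton k f⟩
  have hf0 : f ≠ 0 := by
    rintro rfl
    exact hf (isAlgebraic_zero)
  have hπ : π ≠ 0 := by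
    intro h; exact hf0 (congrArg Subtype.val h)
  have heπ : e Polynomial.X = π := Polynomial.algEquivOfTranscendental_apply_X k f hf
  have hmax : (Ideal.span {π}).IsMaximal := by
    have h1 : (Ideal.span {(Polynomial.X : Polynomial k)}).IsMaximal := by
      have := PrincipalIdealRing.isMaximal_of_irreducible (Polynomial.irreducible_X (R := k))
      exact this
    have h2 : Ideal.span {π} = Ideal.map e.toRingEquiv.toRingHom (Ideal.span {(Polynomial.X : Polynomial k)}) := by
      rw [Ideal.map_span, Set.image_singleton]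
      congr 2
      exact heπ.symm
    rw [h2]
    exact Ideal.map_isMaximal_of_equiv e.toRingEquiv
  obtain ⟨S, hS1, hS2, hS3⟩ := fundamental (k := k) (A := A) (L := K) k⟮f⟯ π hπ hmax
  have hreg : ∀ w : Place k K, 0 < w.ord f → ∀ a : A, w.Reg (algebraMap A K a) := by
    rintro w hw ⟨a, ha⟩
    change w.Reg a
    induction ha using Algebra.adjoin_induction with
    | mem x hx =>
      rw [Set.mem_singleton_iff] at hx
      subst hx
      exact Or.inr hw.le
    | algebraMap r => exact w.reg_const r
    | add x y _ _ hx hy => exact w.reg_add hx hy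
    | mul x y _ _ hx hy => exact w.reg_mul hx hy
  have hS1' : ∀ w, w ∈ S ↔ 0 < w.ord f := by
    intro w
    rw [hS1]
    exact ⟨fun h => h.2, fun h => ⟨hreg w h, h⟩⟩
  have hdeg : ∀ w ∈ S, w.relf A = w.deg := by
    intro w hw
    have hw0 := (hS1' w).1 hw
    have h1 : ∀ a : A, ∃ c : k, w.red (algebraMap A K a) = algebraMap k w.RF c := by
      rintro ⟨a, ha⟩
      change ∃ c : k, w.red a = algebraMap k w.RF c
      suffices hh : w.Reg a ∧ ∃ c : k, w.red a = algebraMap k w.RF c from hh.2
      induction ha using Algebra.adjoin_induction with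
      | mem x hx =>
        rw [Set.mem_singleton_iff] at hx
        subst hx
        have hr : w.Reg x := Or.inr hw0.le
        exact ⟨hr, 0, by rw [map_zero, w.red_eq_zero_iff hr]; exact Or.inr hw0⟩
      | algebraMap r => exact ⟨w.reg_const r, r, rfl⟩
      | add x y _ _ hx hy =>
        obtain ⟨hx, c, hc⟩ := hx
        obtain ⟨hy, d, hd⟩ := hy
        exact ⟨w.reg_add hx hy, c + d, by rw [w.red_add hx hy, hc, hd, map_add]⟩
      | mul x y _ _ hx hy =>
        obtain ⟨hx, c, hc⟩ := hx
        obtain ⟨hy, d, hd⟩ := hy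
        exact ⟨w.reg_mul hx hy, c * d, by rw [w.red_mul hx hy, hc, hd, map_mul]⟩
    have h2 : Subfield.closure (Set.range fun a : A => w.red (algebraMap A K a)) = (algebraMap k w.RF).fieldRange := by
      apply le_antisymm
      · rw [Subfield.closure_le]
        rintro _ ⟨a, rfl⟩
        obtain ⟨c, hc⟩ := h1 a
        exact ⟨c, hc.symm⟩
      · rintro _ ⟨c, rfl⟩
        apply Subfield.subset_closure
        exact ⟨algebraMap k A c, rfl⟩
    unfold Place.relf Place.deg
    rw [h2]
    let i : k ≃+* (algebraMap k w.RF).fieldRange :=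
      RingEquiv.ofBijective (algebraMap k w.RF).rangeRestrictField
        ⟨(algebraMap k w.RF).rangeRestrictField.injective, by
          rintro ⟨_, ⟨c, rfl⟩⟩
          exact ⟨c, rfl⟩⟩
    exact (Algebra.finrank_eq_of_equiv_equiv i (RingEquiv.refl _) (by ext; rfl)).symm
  refine ⟨S, hS1', ?_, ?_⟩
  · intro w hw
    rw [← hdeg w hw]
    exact hS2 w hw
  · rw [← hS3]
    refine Finset.sum_congr rfl fun w hw => ?_
    rw [hdeg w hw]
    rfl

theorem Place.deg_pos [CharZero k] [IsFF k K] (P : Place k K) : 0 < P.deg := by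
  obtain ⟨t, ht0, ht⟩ := P.surj
  obtain ⟨S, hS, hS2, -⟩ := zeros (P.transcendental_of_ord_ne (f := t) (by omega))
  exact hS2 P ((hS P).2 (by omega))

instance [CharZero k] [IsFF k K] (P : Place k K) : FiniteDimensional k P.RF :=
  FiniteDimensional.of_finrank_pos P.deg_pos

theorem adjoin_inv (f : K) : k⟮f⁻¹⟯ = k⟮f⟯ := by
  apply le_antisymm
  · rw [IntermediateField.adjoin_simple_le_iff]
    exact inv_mem (IntermediateField.mem_adjoin_simple_self k f)
  · rw [IntermediateField.adjoin_simple_le_iff]
    have := inv_mem (IntermediateField.mem_adjoin_simple_self k f⁻¹)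
    rwa [inv_inv] at this

theorem poles [CharZero k] [h : IsFF k K] {f : K} (hf : Transcendental k f) :
    ∃ S : Finset (Place k K), (∀ w, w ∈ S ↔ w.ord f < 0) ∧
      ∑ w ∈ S, (- w.ord f).toNat * w.deg = finrank k⟮f⟯ K := by
  obtain ⟨S, hS, -, hS3⟩ := zeros (k := k) (K := K) (f := f⁻¹) (by
    intro h; apply hf; simpa using h.inv)
  refine ⟨S, ?_, ?_⟩
  · intro w
    rw [hS, w.ord_inv]; omega
  · rw [adjoin_inv] at hS3
    rw [← hS3]
    refine Finset.sum_congr rfl fun w _ => ?_
    rw [w.ord_inv]

end

end FF
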