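import Pool.Agent.KS6_3.ZL.Helper386.D5V.Helper386_FF_Place

/-! The fundamental identity for extensions of discrete valuations. -/

set_option autoImplicit false
set_option linter.all false
set_option linter.overlappingInstances false
set_option linter.unusedSimpArgs false
set_option linter.deprecated false

open Module IsDedekindDomain

namespace FF

namespace Place

variable {k L : Type*} [Field k] [Field L] [Algebra k L]

/-- Reduction as a ring homomorphism on a ring all of whose elements are regular. -/
noncomputable def redHom {A : Type*} [CommRing A] (P : Place k L) (φ : A →+* L)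
    (h : ∀ a, P.Reg (φ a)) : A →+* P.RF where
  toFun a := P.red (φ a)
  map_one' := by rw [map_one, P.red_one]
  map_mul' a b := by rw [map_mul, P.red_mul (h a) (h b)]
  map_zero' := by rw [map_zero, P.red_zero]
  map_add' a b := by rw [map_add, P.red_add (h a) (h b)]

theorem redHom_apply {A : Type*} [CommRing A] (P : Place k L) (φ : A →+* L)
    (h : ∀ a, P.Reg (φ a)) (a : A) : P.redHom φ h a = P.red (φ a) := rfl

/-- The residue degree over (the residue field generated by) a ring `A`. -/
noncomputable def relf (P : Place k L) (A : Type*) [CommRing A] [Algebra A L] : ℕ :=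
  finrank (Subfield.closure (Set.range fun a : A => P.red (algebraMap A L a))) P.RF

theorem reg_of_isIntegral {A : Type*} [CommRing A] [Algebra A L] (P : Place k L)
    (h : ∀ a : A, P.Reg (algebraMap A L a)) {b : L} (hb : IsIntegral A b) : P.Reg b := by
  let ψ : A →+* P.O := (algebraMap A L).codRestrict P.O h
  have hb' : IsIntegral P.O b := by
    obtain ⟨p, hp, he⟩ := hb
    refine ⟨p.map ψ, hp.map _, ?_⟩
    rw [Polynomial.eval₂_map]
    exact he
  obtain ⟨y, hy⟩ := (IsIntegrallyClosed.isIntegral_iff (R := P.O) (K := L)).1 hb'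
  rw [← hy]
  exact y.2

end Place

section

variable {k A L : Type*} (K0 : Type*) [Field k] [CommRing A] [IsDedekindDomain A] [Algebra k A]
  [Field K0] [Algebra A K0] [IsFractionRing A K0] [Field L] [Algebra K0 L] [Algebra A L]
  [IsScalarTower A K0 L] [FiniteDimensional K0 L] [Algebra.IsSeparable K0 L]
  [Algebra k L] [IsScalarTower k A L]

/-- The place attached to a prime of a Dedekind `k`-algebra with fraction field `L`. -/
noncomputable def placeOf {B : Type*} [CommRing B] [IsDedekindDomain B] [Algebra k B]
    [Algebra B L] [IsFractionRing B L] [IsScalarTower k B L] (P : HeightOneSpectrum B) : Place k L :=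
  Place.ofVal (P.valuation L) (P.valuation_exists_uniformizer L) (by
    intro c hc
    rw [IsScalarTower.algebraMap_apply k B L, HeightOneSpectrum.valuation_eq_one_iff_notMem]
    intro h
    apply P.isPrime.ne_top
    rw [Ideal.eq_top_iff_one]
    have := P.asIdeal.mul_mem_left (algebraMap k B c⁻¹) h
    rwa [← map_mul, inv_mul_cancel₀ hc, map_one] at this)

section dd
variable {B : Type*} [CommRing B] [IsDedekindDomain B] [Algebra k B]
    [Algebra B L] [IsFractionRing B L] [IsScalarTower k B L] (P : HeightOneSpectrum B)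

theorem placeOf_ord (f : L) : (placeOf (k := k) (L := L) P).ord f = - WithZero.log (P.valuation L f) := rfl

theorem placeOf_nonneg {f : L} (hf : f ≠ 0) : 0 ≤ (placeOf (k := k) (L := L) P).ord f ↔ P.valuation L f ≤ 1 := by
  rw [placeOf_ord]
  have h1 : P.valuation L f ≠ 0 := (Valuation.ne_zero_iff _).2 hf
  rw [← WithZero.log_le_log h1 one_ne_zero, WithZero.log_one]
  omega

theorem placeOf_pos {f : L} (hf : f ≠ 0) : 0 < (placeOf (k := k) (L := L) P).ord f ↔ P.valuation L f < 1 := by
  rw [placeOf_ord]
  have h1 : P.valuation L f ≠ 0 := (Valuation.ne_zero_iff _).2 hf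
  rw [← WithZero.log_lt_log h1 one_ne_zero, WithZero.log_one]
  omega

theorem placeOf_reg (b : B) : (placeOf (k := k) (L := L) P).Reg (algebraMap B L b) := by
  by_cases hb : algebraMap B L b = 0
  · exact Or.inl hb
  · exact Or.inr ((placeOf_nonneg P hb).2 (P.valuation_le_one b))

theorem placeOf_red_eq_zero (b : B) : (placeOf (k := k) (L := L) P).red (algebraMap B L b) = 0 ↔ b ∈ P.asIdeal := by
  rw [Place.red_eq_zero_iff _ (placeOf_reg P b)]
  by_cases hb : b = 0
  · simp [hb]
  · have hb' : algebraMap B L b ≠ 0 := by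
      simpa using hb
    rw [placeOf_pos P hb']
    simp only [hb', false_or]
    exact P.valuation_lt_one_iff_mem b

theorem placeOf_redHom_surjective :
    Function.Surjective ((placeOf (k := k) (L := L) P).redHom (algebraMap B L) (placeOf_reg P)) := by
  intro c
  obtain ⟨f, hf, rfl⟩ := (placeOf (k := k) (L := L) P).red_surjective c
  by_cases hf0 : f = 0
  · exact ⟨0, by rw [map_zero, hf0, Place.red_zero]⟩
  obtain ⟨n, d, h⟩ := P.exists_primeCompl_mul_eq_of_integer f ((placeOf_nonneg P hf0).1 ((Place.reg_iff _ hf0).1 hf))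
  have hd : (placeOf (k := k) (L := L) P).red (algebraMap B L d) ≠ 0 := by
    rw [Ne, placeOf_red_eq_zero]; exact d.2
  have hmax := P.isMaximal
  obtain ⟨e, he⟩ : ∃ e : B, e * d - 1 ∈ P.asIdeal := by
    have := Ideal.Quotient.exists_inv (I := P.asIdeal) (a := Ideal.Quotient.mk _ (d : B)) (by
      rw [Ne, Ideal.Quotient.eq_zero_iff_mem]; exact d.2)
    obtain ⟨b, hb⟩ := this
    obtain ⟨e, rfl⟩ := Ideal.Quotient.mk_surjective b
    refine ⟨e, ?_⟩
    rw [← Ideal.Quotient.eq_zero_iff_mem, map_sub, map_mul, map_one, mul_comm, hb, sub_self]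
  refine ⟨n * e, ?_⟩
  have h1 : (placeOf (k := k) (L := L) P).red (algebraMap B L (e * d)) = 1 := by
    have h2 : algebraMap B L (e * d) = algebraMap B L (e * d - 1) + 1 := by simp
    rw [h2, Place.red_add _ (placeOf_reg P _) (Place.reg_one _), (placeOf_red_eq_zero P _).2 he, zero_add,
      Place.red_one]
  rw [Place.redHom_apply, map_mul, ← h, mul_assoc, ← map_mul, mul_comm (d : B) e,
    Place.red_mul _ hf (placeOf_reg P _), h1, mul_one]

theorem placeOf_injective {P Q : HeightOneSpectrum B} (h : placeOf (k := k) (L := L) P = placeOf Q) : P = Q := by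
  ext b
  rw [← placeOf_red_eq_zero (k := k) (L := L) P, ← placeOf_red_eq_zero (k := k) (L := L) Q, h]

theorem exists_placeOf_eq (w : Place k L) (h : ∀ b : B, w.Reg (algebraMap B L b)) :
    ∃ P : HeightOneSpectrum B, placeOf P = w := by
  let φ := w.redHom (algebraMap B L) h
  let I : Ideal B := RingHom.ker φ
  have hI : I.IsPrime := RingHom.ker_isPrime φ
  have hI0 : I ≠ ⊥ := by
    intro h0
    obtain ⟨t, ht0, ht⟩ := w.surj
    obtain ⟨x, y, hy, rfl⟩ := IsFractionRing.div_surjective (A := B) t
    have hy0 : algebraMap B L y ≠ 0 := by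
      simpa using nonZeroDivisors.ne_zero hy
    have hx0 : algebraMap B L x ≠ 0 := by
      intro h; rw [h, zero_div] at ht0; exact ht0 rfl
    rw [w.ord_div hx0 hy0] at ht
    have h1 : ∀ z : B, algebraMap B L z ≠ 0 → w.ord (algebraMap B L z) = 0 := by
      intro z hz
      by_contra hne
      have h2 : φ z = 0 := by
        rw [Place.redHom_apply, w.red_eq_zero_iff (h z)]
        have h3 := (w.reg_iff hz).1 (h z)
        right; omega
      have h3 : z ∈ I := h2
      rw [h0] at h3
      rw [Ideal.mem_bot] at h3
      rw [h3, map_zero] at hz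
      exact hz rfl
    rw [h1 x hx0, h1 y hy0] at ht
    omega
  refine ⟨⟨I, hI, hI0⟩, ?_⟩
  apply Place.eq_of_le
  intro f hf0 hf
  rw [placeOf_nonneg _ hf0] at hf
  obtain ⟨n, d, hnd⟩ := HeightOneSpectrum.exists_primeCompl_mul_eq_of_integer _ f hf
  have hd : ¬ φ d = 0 := fun hh => d.2 hh
  rw [Place.redHom_apply, w.red_eq_zero_iff (h d)] at hd
  push Not at hd
  have hdr := (w.reg_iff hd.1).1 (h d)
  have hn0 : algebraMap B L n ≠ 0 := by
    rw [← hnd]; exact mul_ne_zero hf0 hd.1
  have hn := (w.reg_iff hn0).1 (h n)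
  rw [← hnd, w.ord_mul hf0 hd.1] at hn
  omega

end dd

theorem fundamental (π : A) (hπ : π ≠ 0) (hmax : (Ideal.span {π}).IsMaximal) :
    ∃ S : Finset (Place k L), (∀ w, w ∈ S ↔ (∀ a : A, w.Reg (algebraMap A L a)) ∧
      0 < w.ord (algebraMap A L π)) ∧ (∀ w ∈ S, 0 < w.relf A) ∧
      ∑ w ∈ S, (w.ord (algebraMap A L π)).toNat * w.relf A = finrank K0 L := by
  classical
  let p : Ideal A := Ideal.span {π}
  have hp0 : p ≠ ⊥ := by
    simp [p, Ideal.span_singleton_eq_bot, hπ]
  let B := integralClosure A L
  have : IsDedekindDomain B := integralClosure.isDedekindDomain A K0 L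
  have : IsFractionRing B L := integralClosure.isFractionRing_of_finite_extension K0 L
  have hfin : Module.Finite A B := IsIntegralClosure.finite A K0 L B
  have hsc : IsScalarTower k B L := by
    refine IsScalarTower.of_algebraMap_eq fun c => ?_
    rw [IsScalarTower.algebraMap_apply k A B, ← IsScalarTower.algebraMap_apply A B L,
      ← IsScalarTower.algebraMap_apply k A L]
  have hinj : Function.Injective (algebraMap A L) := by
    rw [IsScalarTower.algebraMap_eq A K0 L]
    exact (algebraMap K0 L).injective.comp (IsFractionRing.injective A K0)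
  have htf : Module.IsTorsionFree A B := by
    have hinj' : Function.Injective (algebraMap A B) := by
      intro a b h
      apply hinj
      rw [IsScalarTower.algebraMap_apply A B L, IsScalarTower.algebraMap_apply A B L, h]
    exact Module.isTorsionFree_iff_algebraMap_injective.2 hinj'
  let v : HeightOneSpectrum A := ⟨p, hmax.isPrime, hp0⟩
  have hmax' : p.IsMaximal := hmax
  -- primes over p
  have hmem : ∀ P : Ideal B, P ∈ IsDedekindDomain.primesOverFinset p B ↔ P.IsPrime ∧ P.LiesOver p := by
    intro P
    exact IsDedekindDomain.mem_primesOverFinset_iff hp0 B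
  have hbot : ∀ P : Ideal B, P.LiesOver p → P ≠ ⊥ := by
    intro P hP h0
    have h1 : p = P.comap (algebraMap A B) := hP.over
    rw [h0, ← RingHom.ker_eq_comap_bot,
      (RingHom.injective_iff_ker_eq_bot _).1 (FaithfulSMul.algebraMap_injective A B)] at h1
    exact hp0 h1
  let g : {P : Ideal B // P ∈ IsDedekindDomain.primesOverFinset p B} → Place k L := fun P =>
    placeOf ⟨P.1, ((hmem P.1).1 P.2).1, hbot P.1 ((hmem P.1).1 P.2).2⟩
  have hg : Function.Injective g := by
    intro P Q h
    have := placeOf_injective h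
    exact Subtype.ext (congrArg HeightOneSpectrum.asIdeal this)
  have hregA : ∀ P, ∀ a : A, (g P).Reg (algebraMap A L a) := by
    intro P a
    rw [IsScalarTower.algebraMap_apply A B L]
    exact placeOf_reg _ _
  have hrel : ∀ P, Ideal.inertiaDeg' p P.1 = (g P).relf A := by
    intro P
    obtain ⟨hPp, hPl⟩ := (hmem P.1).1 P.2
    let P' : HeightOneSpectrum B := ⟨P.1, hPp, hbot P.1 hPl⟩
    have hlo : P'.asIdeal.LiesOver v.asIdeal := hPl
    rw [Ideal.inertiaDeg'_algebraMap]
    unfold Place.relf
    let φ : B →+* (g P).RF := (g P).redHom (algebraMap B L) (placeOf_reg P')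
    have hφs : Function.Surjective φ := placeOf_redHom_surjective (k := k) (L := L) P'
    have hker : ∀ b, φ b = 0 ↔ b ∈ P.1 := placeOf_red_eq_zero (k := k) (L := L) P'
    let j0 : B ⧸ P.1 →+* (g P).RF := Ideal.Quotient.lift P.1 φ (fun b hb => (hker b).2 hb)
    have hj0 : Function.Bijective j0 := by
      constructor
      · rw [injective_iff_map_eq_zero]
        intro b hb
        obtain ⟨b, rfl⟩ := Ideal.Quotient.mk_surjective b
        rw [Ideal.Quotient.eq_zero_iff_mem, ← hker]
        exact hb
      · intro c
        obtain ⟨b, hb⟩ := hφs c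
        exact ⟨Ideal.Quotient.mk _ b, hb⟩
    let j := RingEquiv.ofBijective j0 hj0
    let i0 : A ⧸ p →+* (g P).RF := j0.comp (algebraMap (A ⧸ p) (B ⧸ P.1))
    have hi0 : ∀ a : A, i0 (Ideal.Quotient.mk p a) = (g P).red (algebraMap A L a) := by
      intro a
      change j0 (Ideal.Quotient.mk _ (algebraMap A B a)) = _
      change (g P).red (algebraMap B L (algebraMap A B a)) = _
      rw [← IsScalarTower.algebraMap_apply A B L]
    let instF : Field (A ⧸ p) := Ideal.Quotient.field p
    let F := Subfield.closure (Set.range fun a : A => (g P).red (algebraMap A L a))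
    have hF : ∀ c, i0 c ∈ F := by
      intro c
      obtain ⟨a, rfl⟩ := Ideal.Quotient.mk_surjective c
      rw [hi0]
      exact Subfield.subset_closure ⟨a, rfl⟩
    let i1 : A ⧸ p →+* F := i0.codRestrict F hF
    have hi1 : Function.Bijective i1 := by
      constructor
      · exact i1.injective
      · rintro ⟨c, hc⟩
        have h1 : F ≤ i0.fieldRange := by
          rw [Subfield.closure_le]
          rintro _ ⟨a, rfl⟩
          exact ⟨Ideal.Quotient.mk p a, hi0 a⟩
        obtain ⟨d, hd⟩ := h1 hc
        exact ⟨d, Subtype.ext hd⟩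
    let i := RingEquiv.ofBijective i1 hi1
    refine Algebra.finrank_eq_of_equiv_equiv i j ?_
    ext c
    rfl
  refine ⟨Finset.univ.image g, ?_, ?_, ?_⟩
  · intro w
    rw [Finset.mem_image]
    constructor
    · rintro ⟨P, -, rfl⟩
      refine ⟨hregA P, ?_⟩
      have h1 : (g P).red (algebraMap A L π) = 0 := by
        rw [IsScalarTower.algebraMap_apply A B L]
        rw [placeOf_red_eq_zero]
        have := ((hmem P.1).1 P.2).2
        change algebraMap A B π ∈ P.1
        rw [← Ideal.mem_comap, ← Ideal.under_def, ← this.over]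
        exact Ideal.mem_span_singleton_self π
      rw [Place.red_eq_zero_iff _ (hregA P π)] at h1
      rcases h1 with h1 | h1
      · exact absurd (hinj (h1.trans (map_zero _).symm)) hπ
      · exact h1
    · rintro ⟨h1, h2⟩
      have hreg : ∀ b : B, w.Reg (algebraMap B L b) := fun b => w.reg_of_isIntegral h1 b.2
      obtain ⟨P, rfl⟩ := exists_placeOf_eq (B := B) w hreg
      have hlo : P.asIdeal.LiesOver p := by
        constructor
        have : (P.asIdeal.comap (algebraMap A B)).IsPrime := Ideal.IsPrime.comap _ (hK := P.isPrime)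
        refine Ideal.IsMaximal.eq_of_le hmax' this.ne_top ?_
        rw [Ideal.span_le, Set.singleton_subset_iff]
        change algebraMap A B π ∈ P.asIdeal
        rw [← placeOf_red_eq_zero (k := k) (L := L) P, Place.red_eq_zero_iff _ (hreg _),
          ← IsScalarTower.algebraMap_apply A B L]
        exact Or.inr h2
      exact ⟨⟨P.asIdeal, (hmem _).2 ⟨P.isPrime, hlo⟩⟩, Finset.mem_univ _, rfl⟩
  · intro w hw
    rw [Finset.mem_image] at hw
    obtain ⟨P, -, rfl⟩ := hw
    rw [← hrel]
    obtain ⟨hPp, hPl⟩ := (hmem P.1).1 P.2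
    exact Ideal.inertiaDeg'_pos p P.1
  · rw [Finset.sum_image (fun a _ b _ h => hg h)]
    have hsum := Ideal.sum_ramification_inertia B K0 L hp0
    rw [← hsum, ← Finset.sum_coe_sort (IsDedekindDomain.primesOverFinset p B)]
    refine Finset.sum_congr rfl fun P _ => ?_
    obtain ⟨hPp, hPl⟩ := (hmem P.1).1 P.2
    let P' : HeightOneSpectrum B := ⟨P.1, hPp, hbot P.1 hPl⟩
    have hlo : P'.asIdeal.LiesOver v.asIdeal := hPl
    congr 1
    · have h1 := HeightOneSpectrum.valuation_liesOver L v P' (algebraMap A K0 π)
      have h2 : v.valuation K0 (algebraMap A K0 π) = WithZero.exp (-1) := by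
        rw [HeightOneSpectrum.valuation_of_algebraMap]
        exact v.intValuation_singleton hπ rfl
      rw [h2, ← IsScalarTower.algebraMap_apply A K0 L] at h1
      have h3 : (g P).ord (algebraMap A L π) = - WithZero.log (P'.valuation L (algebraMap A L π)) := rfl
      rw [h3, ← h1, WithZero.log_pow, WithZero.log_exp]
      simp [v, P']
    · exact (hrel P).symm

end

end FF
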